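import Pool.Agent.helper55.AV.Spec

namespace Pool.Agent.AV

open Finset Function

def TB_Cut {n : ℕ} (π : Equiv.Perm (Fin n)) (k : ℕ) : Prop :=
  1 ≤ k ∧ k ≤ n ∧ ∀ x y : Fin n, (x : ℕ) < k → k ≤ (y : ℕ) → π y < π x

def TB_FC {n : ℕ} (π : Equiv.Perm (Fin n)) (k : ℕ) : Prop :=
  TB_Cut π k ∧ ∀ j < k, ¬ TB_Cut π j

theorem TB_exists {n : ℕ} (hn : 1 ≤ n) (π : Equiv.Perm (Fin n)) : ∃ k, TB_FC π k := by
  classical
  have h : ∃ k, TB_Cut π k := ⟨n, hn, le_rfl, fun x y _ hy => absurd y.2 (by omega)⟩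
  exact ⟨Nat.find h, Nat.find_spec h, fun j hj => Nat.find_min h hj⟩

theorem TB_split {k m : ℕ} (π : Equiv.Perm (Fin (k + m))) (h : TB_Cut π k) :
    ∃ (b : Equiv.Perm (Fin k)) (t : Equiv.Perm (Fin m)),
      (∀ i : Fin k, (π (Fin.castAdd m i) : ℕ) = m + (b i : ℕ)) ∧
      (∀ i : Fin m, (π (Fin.natAdd k i) : ℕ) = (t i : ℕ)) := by
  obtain ⟨hk, -, hc⟩ := h
  have h1 : ∀ i : Fin k, m ≤ (π (Fin.castAdd m i) : ℕ) := by
    intro i
    have hlt : ∀ j : Fin m, (π (Fin.natAdd k j) : ℕ) < (π (Fin.castAdd m i) : ℕ) := by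
      intro j
      exact hc (Fin.castAdd m i) (Fin.natAdd k j) (by simp) (by simp)
    have := Fintype.card_le_of_injective
      (fun j : Fin m => (⟨(π (Fin.natAdd k j) : ℕ), hlt j⟩ : Fin (π (Fin.castAdd m i) : ℕ))) (by
        intro j j' hjj
        have h2 : (π (Fin.natAdd k j) : ℕ) = (π (Fin.natAdd k j') : ℕ) := by
          simpa using congrArg Fin.val hjj
        have h3 := π.injective (Fin.ext h2)
        exact Fin.ext (by have := congrArg Fin.val h3; simpa using this))
    simpa using this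
  have h2 : ∀ j : Fin m, (π (Fin.natAdd k j) : ℕ) < m := by
    intro j
    have hlt : ∀ i : Fin k, k + m - 1 - (π (Fin.castAdd m i) : ℕ) < k + m - 1 - (π (Fin.natAdd k j) : ℕ) := by
      intro i
      have h3 : (π (Fin.natAdd k j) : ℕ) < (π (Fin.castAdd m i) : ℕ) :=
        hc (Fin.castAdd m i) (Fin.natAdd k j) (by simp) (by simp)
      have h4 := (π (Fin.castAdd m i)).2
      omega
    have := Fintype.card_le_of_injective
      (fun i : Fin k => (⟨k + m - 1 - (π (Fin.castAdd m i) : ℕ), hlt i⟩ :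
        Fin (k + m - 1 - (π (Fin.natAdd k j) : ℕ)))) (by
        intro i i' hii
        have h3 : k + m - 1 - (π (Fin.castAdd m i) : ℕ) = k + m - 1 - (π (Fin.castAdd m i') : ℕ) :=
          congrArg (fun x => (x : Fin _).val) hii
        have h4 := (π (Fin.castAdd m i)).2
        have h5 := (π (Fin.castAdd m i')).2
        have h6 := π.injective (Fin.ext (show (π (Fin.castAdd m i) : ℕ) = (π (Fin.castAdd m i') : ℕ) by omega))
        exact Fin.ext (by have := congrArg Fin.val h6; simpa using this))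
    rw [Fintype.card_fin, Fintype.card_fin] at this
    have h7 := (π (Fin.natAdd k j)).2
    omega
  let b0 : Fin k → Fin k := fun i => ⟨(π (Fin.castAdd m i) : ℕ) - m, by
    have := (π (Fin.castAdd m i)).2
    have := h1 i
    omega⟩
  let t0 : Fin m → Fin m := fun i => ⟨(π (Fin.natAdd k i) : ℕ), h2 i⟩
  have hb : Injective b0 := by
    intro i i' hii
    have h3 : (π (Fin.castAdd m i) : ℕ) - m = (π (Fin.castAdd m i') : ℕ) - m :=
      congrArg (fun x => (x : Fin _).val) hii
    have h4 := h1 i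
    have h5 := h1 i'
    have h6 := π.injective (Fin.ext (show (π (Fin.castAdd m i) : ℕ) = (π (Fin.castAdd m i') : ℕ) by omega))
    exact Fin.ext (by have := congrArg Fin.val h6; simpa using this)
  have ht : Injective t0 := by
    intro i i' hii
    have h3 : (π (Fin.natAdd k i) : ℕ) = (π (Fin.natAdd k i') : ℕ) := by
      simpa [t0] using congrArg Fin.val hii
    have h6 := π.injective (Fin.ext h3)
    exact Fin.ext (by have := congrArg Fin.val h6; simpa using this)
  refine ⟨Equiv.ofBijective b0 (Finite.injective_iff_bijective.mp hb),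
    Equiv.ofBijective t0 (Finite.injective_iff_bijective.mp ht), ?_, ?_⟩
  · intro i
    show (π (Fin.castAdd m i) : ℕ) = m + ((π (Fin.castAdd m i) : ℕ) - m)
    have := h1 i
    omega
  · intro i
    rfl

theorem TB_count (k m : ℕ) :
    Nat.card {π : Equiv.Perm (Fin (k + m)) // Av π ∧ TB_FC π k} ≤ g k * s m := by
  classical
  unfold g s
  rw [← Nat.card_prod]
  have hex : ∀ π : {π : Equiv.Perm (Fin (k + m)) // Av π ∧ TB_FC π k},
      ∃ z : {b : Equiv.Perm (Fin k) // Av b ∧ Blk b} × {t : Equiv.Perm (Fin m) // Av t},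
      (∀ i : Fin k, (π.1 (Fin.castAdd m i) : ℕ) = m + (z.1.1 i : ℕ)) ∧
      (∀ i : Fin m, (π.1 (Fin.natAdd k i) : ℕ) = (z.2.1 i : ℕ)) := by
    rintro ⟨π, hA, hF⟩
    obtain ⟨b, t, hb, ht⟩ := TB_split π hF.1
    have hAb : Av b := by
      intro x y z w h1 h2 h3 h4 h5 h6
      refine hA (Fin.castAdd m x) (Fin.castAdd m y) (Fin.castAdd m z) (Fin.castAdd m w) ?_ ?_ ?_ ?_ ?_ ?_
      · exact h1
      · exact h2
      · exact h3
      · rw [Fin.lt_def, hb, hb]; rw [Fin.lt_def] at h4; omega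
      · rw [Fin.lt_def, hb, hb]; rw [Fin.lt_def] at h5; omega
      · rw [Fin.lt_def, hb, hb]; rw [Fin.lt_def] at h6; omega
    have hAt : Av t := by
      intro x y z w h1 h2 h3 h4 h5 h6
      refine hA (Fin.natAdd k x) (Fin.natAdd k y) (Fin.natAdd k z) (Fin.natAdd k w) ?_ ?_ ?_ ?_ ?_ ?_
      · rw [Fin.lt_def] at h1 ⊢; simpa using h1
      · rw [Fin.lt_def] at h2 ⊢; simpa using h2
      · rw [Fin.lt_def] at h3 ⊢; simpa using h3
      · rw [Fin.lt_def, ht, ht]; exact h4
      · rw [Fin.lt_def, ht, ht]; exact h5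
      · rw [Fin.lt_def, ht, ht]; exact h6
    have hBb : Blk b := by
      refine ⟨hF.1.1, fun K hK hKK => ?_⟩
      by_contra hne
      have hex : ∃ j : ℕ, ∃ h : j < k, (⟨j, h⟩ : Fin k) ∉ K := by
        by_contra hcon
        push Not at hcon
        exact hne (Set.eq_univ_of_forall fun x => hcon x.1 x.2)
      have hj := Nat.find_spec hex
      have hmin : ∀ x : Fin k, (x : ℕ) < Nat.find hex → x ∈ K := by
        intro x hx
        by_contra hxK
        exact Nat.find_min hex hx ⟨x.2, hxK⟩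
      obtain ⟨hjk, hjK⟩ := hj
      have hlt : ∀ x ∈ K, (x : ℕ) < Nat.find hex := fun x hx => (hKK x hx _ hjK).1
      refine hF.2 (Nat.find hex) hjk ⟨?_, by omega, ?_⟩
      · obtain ⟨x, hx⟩ := hK
        have := hlt x hx
        omega
      · intro x y hx hy
        by_cases hyk : (y : ℕ) < k
        · have hxK : (⟨x, by omega⟩ : Fin k) ∈ K := hmin _ hx
          have hyK : (⟨y, hyk⟩ : Fin k) ∉ K := fun h => by
            have := hlt _ h
            simp only at this
            omega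
          have h3 := (hKK _ hxK _ hyK).2
          have h4 := hb ⟨x, by omega⟩
          have h5 := hb ⟨y, hyk⟩
          have e1 : Fin.castAdd m (⟨x, by omega⟩ : Fin k) = x := Fin.ext rfl
          have e2 : Fin.castAdd m (⟨y, hyk⟩ : Fin k) = y := Fin.ext rfl
          rw [e1] at h4
          rw [e2] at h5
          rw [Fin.lt_def] at h3 ⊢
          rw [h4, h5]
          omega
        · exact hF.1.2.2 x y (by omega) (by omega)
    exact ⟨⟨⟨b, hAb, hBb⟩, ⟨t, hAt⟩⟩, hb, ht⟩
  choose F hF1 hF2 using hex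
  refine Nat.card_le_card_of_injective F ?_
  intro π π' hππ
  apply Subtype.ext
  apply Equiv.ext
  intro x
  apply Fin.ext
  induction x using Fin.addCases with
  | left i => rw [hF1, hF1, hππ]
  | right i => rw [hF2, hF2, hππ]

theorem TB : TB_stmt := by
  classical
  intro n hn
  have h1 : s n = (univ.filter fun π : Equiv.Perm (Fin n) => Av π).card := by
    unfold s
    rw [Nat.card_eq_fintype_card, Fintype.card_subtype]
  have h2 : (univ.filter fun π : Equiv.Perm (Fin n) => Av π) ⊆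
      (Ico 1 (n + 1)).biUnion fun k => univ.filter fun π : Equiv.Perm (Fin n) => Av π ∧ TB_FC π k := by
    intro π hπ
    rw [mem_filter] at hπ
    obtain ⟨k, hk⟩ := TB_exists hn π
    rw [mem_biUnion]
    refine ⟨k, mem_Ico.mpr ⟨hk.1.1, Nat.lt_succ_of_le hk.1.2.1⟩, mem_filter.mpr ⟨mem_univ _, hπ.2, hk⟩⟩
  rw [h1]
  refine (card_le_card h2).trans (card_biUnion_le.trans (sum_le_sum fun k hk => ?_))
  rw [mem_Ico] at hk
  obtain ⟨m, rfl⟩ : ∃ m, n = k + m := ⟨n - k, by omega⟩
  rw [Nat.add_sub_cancel_left]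
  have h3 := TB_count k m
  rwa [Nat.card_eq_fintype_card, Fintype.card_subtype] at h3

end Pool.Agent.AV
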