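import Pool.Agent.helper14.AV.Spec3

set_option autoImplicit false

namespace Pool.Agent.helper14.AV

private theorem SPB_seg {ι : Type} (P Q : ι → ℝ × ℝ) (y : ι × Bool) :
    segment ℝ (P y.1) (Q y.1) = segment ℝ (st P Q y) (fn P Q y) := by
  unfold st fn
  cases y.2
  · simp only [Bool.false_eq_true, if_false]
    exact segment_symm ℝ _ _
  · simp only [if_true]

theorem SPB : SPB_stmt := by
  intro ι P Q x k v hv hsp
  obtain ⟨-, h2⟩ := hsp
  have hE : ∀ i, i + 1 < k → Eg P Q (x i, x (i + 1)) = segment ℝ (v (2 * i + 1)) (v (2 * i + 1 + 1)) := by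
    intro i hi
    have e1 := (hv i (by omega)).2
    have e2 := (hv (i + 1) hi).1
    have e3 : 2 * (i + 1) = 2 * i + 1 + 1 := by ring
    rw [e3] at e2
    rw [e1, e2]
    rfl
  have hS : ∀ j, j < k → segment ℝ (P (x j).1) (Q (x j).1) = segment ℝ (v (2 * j)) (v (2 * j + 1)) := by
    intro j hj
    rw [SPB_seg, (hv j hj).1, (hv j hj).2]
  refine ⟨?_, ?_⟩
  · intro i hi j hj hji hji1
    rw [hE i hi, hS j hj, Set.disjoint_left]
    intro z hz1 hz2
    rcases Nat.lt_or_ge j i with h | h
    · have := (h2 (2 * j) (2 * i + 1) (by omega) (by omega) z hz2 hz1).1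
      omega
    · have := (h2 (2 * i + 1) (2 * j) (by omega) (by omega) z hz1 hz2).1
      omega
  · intro i j hij hj
    rw [hE i (by omega), hE j hj, Set.disjoint_left]
    intro z hz1 hz2
    have := (h2 (2 * i + 1) (2 * j + 1) (by omega) (by omega) z hz1 hz2).1
    omega

end Pool.Agent.helper14.AV
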